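import Pool.Agent.Run7.h693.Defs
import Pool.Agent.Run7.h693.Final

/-!
The homogeneous dimension of a stratified nilpotent Lie group is at most the product of the growth
exponents of its filling functions, in the dimensions `1, ..., dim - 1`. In particular every
non-abelian stratified nilpotent Lie group has a super-Euclidean filling function in some dimension
between `1` and `dim - 1`: the product of the Euclidean exponents `(k + 1) / k` is `dim`, which is
less than the homogeneous dimension.

`G : GroupLaw E` is a Lie group structure on the manifold `E`, a finite-dimensional Euclidean
space, with identity `0` (every connected and simply connected nilpotent Lie group is of this form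
up to isomorphism). `S` is a stratification of its Lie algebra. The left-invariant Riemannian metric
is the one equal to the inner product of `E` at the identity; as `E` is arbitrary, every
left-invariant metric is covered. The definitions are in `Pool.Agent.Run7.h693.Defs`.
-/

open Run7.h693

theorem Pool.Agent.Results.MP_b8ac35_gt.FillingProduct.result
    {E : Type*} [NormedAddCommGroup E] [InnerProductSpace ℝ E] [FiniteDimensional ℝ E]
    (G : GroupLaw E) (S : G.Stratification) :
    (∀ a : ℕ → ℝ,
      (∀ k, 1 ≤ k → k + 1 ≤ Module.finrank ℝ E → 1 ≤ a k ∧ G.FillingBound k (a k)) →
      S.homDim ≤ ∏ k ∈ Finset.Ico 1 (Module.finrank ℝ E), a k) ∧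
    ((∃ x y, G.mul x y ≠ G.mul y x) →
      ∃ k : ℕ, 1 ≤ k ∧ k + 1 ≤ Module.finrank ℝ E ∧ G.SuperEuclidean k) :=
  ⟨fun _ ha => group_product G S ha, group_super_euclidean G S⟩
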